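import Mathlib
import Pool.Agent.H58B.Fin

set_option autoImplicit false

/-!
# Finite extensions with the Bogomolov property, and the compositum of the quadratic ones without

Fields are subfields of `AlgebraicClosure ℚ`, and a number field `K` is an intermediate field of
`AlgebraicClosure ℚ` over `ℚ` which has finite degree.
-/

namespace Pool.Agent.Results.MP_329b50_nt.BogomolovQuadratic

open Polynomial Module
open Pool.Agent.H58P (Qb ht qb_isIntegral alg_isIntegral)

/-- The Bogomolov property of a field `L` of algebraic numbers with respect to the multiplicative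
group: some positive number is a lower bound for the absolute logarithmic Weil height of every
nonzero element of `L` which is not a root of unity. -/
def Bogomolov (L : Subfield (AlgebraicClosure ℚ)) : Prop :=
  ∃ c : ℝ, 0 < c ∧ ∀ P ∈ L, P ≠ 0 → (∀ n : ℕ, 0 < n → P ^ n ≠ 1) →
    c ≤ NumberField.absLogHeight₁ P

/-- `F^{(d)}`, the compositum of all extensions of `F` of degree at most `d`. -/
noncomputable def compositum (F : IntermediateField ℚ (AlgebraicClosure ℚ)) (d : ℕ) :
    IntermediateField F (AlgebraicClosure ℚ) :=
  sSup {L : IntermediateField F (AlgebraicClosure ℚ) | FiniteDimensional F L ∧ finrank F L ≤ d}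

/-- a finite extension is generated by a finite set -/
lemma exists_gen (F : IntermediateField ℚ (AlgebraicClosure ℚ))
    (L : IntermediateField F (AlgebraicClosure ℚ)) (hL : FiniteDimensional F L) :
    ∃ S : Set (AlgebraicClosure ℚ), S.Finite ∧
      ∀ y ∈ L, y ∈ F ⊔ IntermediateField.adjoin ℚ S := by
  obtain ⟨S, hS, hSL⟩ := IntermediateField.fg_def.mp
    (IntermediateField.essFiniteType_iff.mp (inferInstance : Algebra.EssFiniteType F L))
  refine ⟨S, hS, fun y hy => ?_⟩
  rw [← IntermediateField.restrictScalars_adjoin_eq_sup]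
  rw [← hSL] at hy
  exact hy

/-- a point quadratic over `F` lies in `F^{(d)}` for `d ≥ 2` -/
lemma mem_compositum (F : IntermediateField ℚ (AlgebraicClosure ℚ)) (x : AlgebraicClosure ℚ)
    (hx0 : x ≠ 0) (hx : x + x⁻¹ ∈ F) (d : ℕ) (hd : 2 ≤ d) : x ∈ compositum F d := by
  have hint : IsIntegral F x := alg_isIntegral F x
  have h1 : IntermediateField.adjoin F {x} ≤ compositum F d := by
    apply le_sSup
    refine ⟨IntermediateField.adjoin.finiteDimensional hint, ?_⟩
    rw [IntermediateField.adjoin.finrank hint]
    refine le_trans ?_ hd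
    set t : F := ⟨x + x⁻¹, hx⟩ with ht
    have h2 : aeval x (X ^ 2 - C t * X + 1 : F[X]) = 0 := by
      simp only [map_add, map_sub, map_pow, map_mul, aeval_X, aeval_C, map_one]
      have e : (algebraMap F (AlgebraicClosure ℚ)) t = x + x⁻¹ := rfl
      rw [e]
      field_simp
      ring
    have h3 : (X ^ 2 - C t * X + 1 : F[X]).Monic := by
      monicity!
    have h4 : (X ^ 2 - C t * X + 1 : F[X]).natDegree = 2 := by
      compute_degree!
    rw [← h4]
    exact natDegree_le_of_dvd (minpoly.dvd _ _ h2) h3.ne_zero
  exact h1 (IntermediateField.mem_adjoin_simple_self F x)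

/-- **Answer to Q1 (negative), for the multiplicative group.** Every number field `K` has an
algebraic extension `F` all of whose finite extensions have the Bogomolov property, while
`F^{(d)}` does not have it for any `d ≥ 2`. -/
theorem result (K : IntermediateField ℚ (AlgebraicClosure ℚ)) (hK : FiniteDimensional ℚ K) :
    ∃ F : IntermediateField ℚ (AlgebraicClosure ℚ), K ≤ F ∧
      (∀ L : IntermediateField F (AlgebraicClosure ℚ), FiniteDimensional F L →
        Bogomolov L.toSubfield) ∧
      ∀ d : ℕ, 2 ≤ d → ¬ Bogomolov (compositum F d).toSubfield := by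
  obtain ⟨F, hKF, hB, hsmall⟩ := Pool.Agent.H58B.main K hK
  refine ⟨F, hKF, ?_, ?_⟩
  · intro L hL
    obtain ⟨S, hS, hSL⟩ := exists_gen F L hL
    obtain ⟨c, hc, hb⟩ := hB S hS
    refine ⟨c, hc, fun P hP hP0 hnt => ?_⟩
    rw [Pool.Agent.H58P.absLogHeight₁_eq]
    exact hb P (hSL P hP) hnt hP0
  · rintro d hd ⟨c, hc, hb⟩
    obtain ⟨x, hx0, hnt, hlt, hmem⟩ := hsmall c hc
    have h1 := hb x (mem_compositum F x hx0 hmem d hd) hx0 hnt
    rw [Pool.Agent.H58P.absLogHeight₁_eq] at h1
    linarith

end Pool.Agent.Results.MP_329b50_nt.BogomolovQuadratic
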